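import Pool.Agent.H79.QF.Targets

/-!
# Board qfg_modules, row E1: the pairs for which the gate becomes true between them
-/

set_option autoImplicit false

open Finset

namespace Pool.Agent.H45.QF

open Pool.Agent.H79.QF

theorem ch_mono {R s : ℕ} {Ω X : Type} [Fintype Ω] [Fintype X] (K : Ch R s Ω X)
    (y : Fin R → Ω) (u : Fin s) {r t : ℕ} (hrt : r ≤ t) (ht : t ≤ R) (h : K.a y r u) :
    K.a y t u := by
  induction t, hrt using Nat.le_induction with
  | base => exact h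
  | succ t hrt ih => exact K.mono y t u (by omega) (ih (by omega))

theorem e1_tau {R s : ℕ} {Ω X : Type} [Fintype Ω] [Fintype X] (K : Ch R s Ω X)
    (y : Fin R → Ω) (u : Fin s) :
    ∃ τ : ℕ, ∀ t < R, ∀ r ≤ t, (¬ K.a y r u ∧ K.a y t u) ↔ (r ≤ τ ∧ τ < t) := by
  classical
  by_cases h : ∃ τ, τ < R ∧ ¬ K.a y τ u
  · obtain ⟨τ0, h0, h0'⟩ := h
    obtain ⟨τ, hτ⟩ : ∃ τ, τ = Nat.findGreatest (fun τ => τ < R ∧ ¬ K.a y τ u) R := ⟨_, rfl⟩
    have h1 : τ < R ∧ ¬ K.a y τ u := by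
      rw [hτ]
      exact Nat.findGreatest_spec (P := fun τ => τ < R ∧ ¬ K.a y τ u) h0.le ⟨h0, h0'⟩
    have h2 : ∀ r, r < R → ¬ K.a y r u → r ≤ τ := by
      intro r hr hr'
      rw [hτ]
      exact Nat.le_findGreatest hr.le ⟨hr, hr'⟩
    refine ⟨τ, fun t ht r hr => ⟨?_, ?_⟩⟩
    · rintro ⟨h3, h4⟩
      refine ⟨h2 r (by omega) h3, ?_⟩
      by_contra hc
      exact h1.2 (ch_mono K y u (by omega) h1.1.le h4)
    · rintro ⟨h3, h4⟩
      refine ⟨fun h5 => h1.2 (ch_mono K y u h3 h1.1.le h5), ?_⟩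
      by_contra hc
      have := h2 t ht hc
      omega
  · refine ⟨R, fun t ht r hr => ⟨?_, ?_⟩⟩
    · rintro ⟨h3, -⟩
      exact absurd ⟨r, by omega, h3⟩ h
    · rintro ⟨-, h4⟩
      omega

open Classical in
theorem pf_E1 (hHIL : T_HIL) : T_E1 := by
  intro R s Ω X _ _ K u α β hα hβ
  have key : ∀ (y : Fin R → Ω) (x : X), ∑ t ∈ range R, ∑ r ∈ range (t + 1),
      (if ¬ K.a y r u ∧ K.a y t u then α y r * β y t x / ((t : ℝ) - r + 1) else 0) ≤
      2 * (∑ r ∈ range R, α y r ^ 2 + ∑ t ∈ range R, β y t x ^ 2) := by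
    intro y x
    obtain ⟨τ, hτ⟩ := e1_tau K y u
    refine le_trans (le_of_eq ?_) (hHIL R τ (α y) (fun t => β y t x) (hα y) (fun t => hβ y t x))
    refine sum_congr rfl fun t ht => sum_congr rfl fun r hr => ?_
    have h := hτ t (mem_range.1 ht) r (by
      have := mem_range.1 hr
      omega)
    by_cases h1 : r ≤ τ ∧ τ < t
    · rw [if_pos h1, if_pos (h.2 h1)]
    · rw [if_neg h1, if_neg (fun h2 => h1 (h.1 h2))]
  refine (sum_le_sum fun y _ => sum_le_sum fun x _ => key y x).trans (le_of_eq ?_)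
  rw [mul_add]
  have h1 : ∀ y : Fin R → Ω, ∑ x : X, 2 * (∑ r ∈ range R, α y r ^ 2 + ∑ t ∈ range R, β y t x ^ 2) =
      2 * (Fintype.card X * ∑ r ∈ range R, α y r ^ 2) + 2 * ∑ x, ∑ t ∈ range R, β y t x ^ 2 := by
    intro y
    rw [← mul_sum, sum_add_distrib, sum_const, card_univ, nsmul_eq_mul, mul_add]
  rw [sum_congr rfl fun y _ => h1 y, sum_add_distrib, ← mul_sum, ← mul_sum, ← mul_sum]

end Pool.Agent.H45.QF
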