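import Pool.Agent.H79.QF.Targets

/-!
# Board qfg_modules, row E3: the exceptional `x`
-/

set_option autoImplicit false

open Finset

namespace Pool.Agent.H45.QF

open Pool.Agent.H79.QF

theorem e3_r (hHA2 : T_HA2) (R t : ℕ) (ht : t < R) :
    ∑ r ∈ range (t + 1), 1 / ((t : ℝ) - r + 1) ≤ 61 / 50 * Real.sqrt R := by
  refine le_trans ?_ (hHA2 R (by omega)).1
  rw [← sum_range_reflect]
  have h1 : ∀ j ∈ range (t + 1), 1 / ((t : ℝ) - ((t + 1 - 1 - j : ℕ) : ℝ) + 1) =
      1 / ((j : ℝ) + 1) := by
    intro j hj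
    have hj' : j ≤ t := by
      have := mem_range.1 hj
      omega
    rw [Nat.add_sub_cancel, Nat.cast_sub hj', sub_sub_cancel]
  rw [sum_congr rfl h1]
  refine sum_le_sum_of_subset_of_nonneg (range_subset_range.2 ht) (fun d _ _ => by positivity)

theorem e3_t (hHA2 : T_HA2) (R r : ℕ) (hr : r < R) :
    ∑ t ∈ range R, (if r ≤ t then 1 / ((t : ℝ) - r + 1) else 0) ≤ 61 / 50 * Real.sqrt R := by
  refine le_trans ?_ (hHA2 R (by omega)).1
  rw [← sum_filter]
  have h1 : (range R).filter (fun t => r ≤ t) = Ico r R := by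
    ext t
    simp only [mem_filter, mem_range, mem_Ico]
    omega
  rw [h1, sum_Ico_eq_sum_range]
  have h2 : ∀ j ∈ range (R - r), 1 / (((r + j : ℕ) : ℝ) - r + 1) = 1 / ((j : ℝ) + 1) := by
    intro j _
    push_cast
    rw [add_sub_cancel_left]
  rw [sum_congr rfl h2]
  refine sum_le_sum_of_subset_of_nonneg (range_subset_range.2 (by omega))
    (fun d _ _ => by positivity)

theorem e3_sw (R : ℕ) (f : ℕ → ℕ → ℝ) :
    ∑ t ∈ range R, ∑ r ∈ range (t + 1), f t r =
      ∑ r ∈ range R, ∑ t ∈ range R, if r ≤ t then f t r else 0 := by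
  rw [sum_comm (s := range R) (t := range R)]
  refine sum_congr rfl fun t ht => ?_
  rw [← sum_filter]
  refine sum_congr ?_ fun _ _ => rfl
  ext r
  have := mem_range.1 ht
  simp only [mem_filter, mem_range]
  omega

open Classical in
theorem e3_zo {R s : ℕ} {Ω X : Type} [Fintype Ω] [Fintype X] (K : Ch R s Ω X)
    (y : Fin R → Ω) (t : ℕ) (u : Fin s) (hR : 0 < R) :
    ∑ x : X, (if ¬ K.B y t u ∧ K.p y t x u then (1 : ℝ) else 0) ≤ Fintype.card X / R := by
  have hR' : (0 : ℝ) < R := by exact_mod_cast hR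
  by_cases h : K.B y t u
  · have h1 : ∀ x ∈ (univ : Finset X), (if ¬ K.B y t u ∧ K.p y t x u then (1 : ℝ) else 0) = 0 :=
      fun x _ => if_neg (fun h' => h'.1 h)
    rw [sum_eq_zero h1]
    positivity
  · have h0 := h
    unfold Ch.B at h0
    push Not at h0
    obtain ⟨ht, h1⟩ := h0
    have h2 := K.zo y ⟨t, ht⟩ u h1
    have h3 : ∑ x : X, (if ¬ K.B y t u ∧ K.p y t x u then (1 : ℝ) else 0) =
        (Nat.card {x : X // K.p y t x u} : ℝ) := by
      rw [Nat.card_eq_fintype_card, Fintype.card_subtype, ← sum_boole]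
      refine sum_congr rfl fun x _ => ?_
      by_cases hx : K.p y t x u
      · rw [if_pos ⟨h, hx⟩, if_pos hx]
      · rw [if_neg (fun h' => hx h'.2), if_neg hx]
    rw [h3, le_div_iff₀ hR', mul_comm]
    exact_mod_cast h2

open Classical in
theorem pf_E3 (hHA2 : T_HA2) : T_E3 := by
  intro R s Ω X _ _ K u α β hα hβ
  rcases Nat.eq_zero_or_pos R with rfl | hR
  · simp
  have hR' : (0 : ℝ) < R := by exact_mod_cast hR
  obtain ⟨S, hS⟩ : ∃ S, S = Real.sqrt (R : ℝ) := ⟨_, rfl⟩
  have hS0 : 0 < S := hS ▸ Real.sqrt_pos.2 hR'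
  have hS2 : S * S = R := by rw [hS]; exact Real.mul_self_sqrt hR'.le
  have key : ∀ y : Fin R → Ω, ∑ x, ∑ t ∈ range R, ∑ r ∈ range (t + 1),
      (if ¬ K.B y t u ∧ K.p y t x u then α y r * β y t x / ((t : ℝ) - r + 1) else 0) ≤
      61 / 100 * (Fintype.card X * ∑ t ∈ range R, α y t ^ 2) +
        61 / 100 * ∑ x, ∑ t ∈ range R, β y t x ^ 2 := by
    intro y
    have step1 : ∑ x, ∑ t ∈ range R, ∑ r ∈ range (t + 1),
        (if ¬ K.B y t u ∧ K.p y t x u then α y r * β y t x / ((t : ℝ) - r + 1) else 0) ≤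
        ∑ x, ∑ t ∈ range R, ∑ r ∈ range (t + 1),
        ((S / 2 * α y r ^ 2 * (1 / ((t : ℝ) - r + 1))) *
          (if ¬ K.B y t u ∧ K.p y t x u then 1 else 0) +
          β y t x ^ 2 / (2 * S) * (1 / ((t : ℝ) - r + 1))) := by
      refine sum_le_sum fun x _ => sum_le_sum fun t _ => sum_le_sum fun r hr => ?_
      have hrt : r ≤ t := by
        have := mem_range.1 hr
        omega
      have hrt' : (r : ℝ) ≤ t := by exact_mod_cast hrt
      have hw : 0 < 1 / ((t : ℝ) - r + 1) := one_div_pos.2 (by linarith)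
      obtain ⟨w, hw'⟩ : ∃ w, w = 1 / ((t : ℝ) - r + 1) := ⟨_, rfl⟩
      rw [div_eq_mul_one_div, ← hw'] 
      rw [← hw'] at hw
      by_cases h : ¬ K.B y t u ∧ K.p y t x u
      · rw [if_pos h, if_pos h, mul_one]
        have h1 : α y r * β y t x ≤ S / 2 * α y r ^ 2 + β y t x ^ 2 / (2 * S) := by
          have h2 : S / 2 * α y r ^ 2 + β y t x ^ 2 / (2 * S) - α y r * β y t x =
              (S * α y r - β y t x) ^ 2 / (2 * S) := by
            field_simp
            ring
          have h3 : 0 ≤ (S * α y r - β y t x) ^ 2 / (2 * S) := by positivity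
          linarith
        calc α y r * β y t x * w ≤ (S / 2 * α y r ^ 2 + β y t x ^ 2 / (2 * S)) * w :=
              mul_le_mul_of_nonneg_right h1 hw.le
          _ = _ := by ring
      · rw [if_neg h, if_neg h, mul_zero, zero_add]
        positivity
    refine step1.trans ?_
    simp only [sum_add_distrib]
    refine add_le_add ?_ ?_
    · -- the first part
      rw [sum_comm]
      have h1 : ∀ t ∈ range R, ∑ x : X, ∑ r ∈ range (t + 1),
          (S / 2 * α y r ^ 2 * (1 / ((t : ℝ) - r + 1))) *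
            (if ¬ K.B y t u ∧ K.p y t x u then 1 else 0) ≤
          ∑ r ∈ range (t + 1), (Fintype.card X / (2 * S)) * (α y r ^ 2 *
            (1 / ((t : ℝ) - r + 1))) := by
        intro t _
        rw [sum_comm]
        refine sum_le_sum fun r hr => ?_
        have hrt : r ≤ t := by
          have := mem_range.1 hr
          omega
        have hrt' : (r : ℝ) ≤ t := by exact_mod_cast hrt
        have hw : 0 < 1 / ((t : ℝ) - r + 1) := one_div_pos.2 (by linarith)
        rw [← mul_sum]
        refine (mul_le_mul_of_nonneg_left (e3_zo K y t u hR) (by positivity)).trans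
          (le_of_eq ?_)
        rw [← hS2]
        field_simp
      refine (sum_le_sum h1).trans ?_
      rw [e3_sw, mul_sum, mul_sum]
      refine sum_le_sum fun r hr => ?_
      have h2 : ∀ t ∈ range R, (if r ≤ t then (Fintype.card X / (2 * S)) * (α y r ^ 2 *
            (1 / ((t : ℝ) - r + 1))) else 0) =
          (Fintype.card X / (2 * S)) * α y r ^ 2 * (if r ≤ t then
            1 / ((t : ℝ) - r + 1) else 0) := by
        intro t _
        by_cases h : r ≤ t
        · rw [if_pos h, if_pos h, mul_assoc]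
        · rw [if_neg h, if_neg h, mul_zero]
      rw [sum_congr rfl h2, ← mul_sum]
      refine (mul_le_mul_of_nonneg_left (e3_t hHA2 R r (mem_range.1 hr))
        (by positivity)).trans (le_of_eq ?_)
      rw [← hS]
      field_simp
      ring
    · rw [mul_sum]
      refine sum_le_sum fun x _ => ?_
      rw [mul_sum]
      refine sum_le_sum fun t ht => ?_
      rw [← mul_sum]
      refine (mul_le_mul_of_nonneg_left (e3_r hHA2 R t (mem_range.1 ht))
        (by positivity)).trans (le_of_eq ?_)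
      rw [← hS]
      field_simp
      ring
  refine (sum_le_sum fun y _ => key y).trans (le_of_eq ?_)
  rw [sum_add_distrib, ← mul_sum, ← mul_sum, ← mul_sum, mul_add]

end Pool.Agent.H45.QF
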