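import Pool.Agent.H45.QF.E1

/-!
# Board qfg_modules, row EST: the three estimates together
-/

set_option autoImplicit false

open Finset

namespace Pool.Agent.H45.QF

open Pool.Agent.H79.QF

open Classical in
theorem pf_EST (hE1 : T_E1) (hE2 : T_E2) (hE3 : T_E3) : T_EST := by
  intro R s Ω X _ _ K u α β hα hβ dα dβ
  have e1 := hE1 R s Ω X K u α β hα hβ
  have e2 := hE2 R s Ω X K u α β hα hβ dα dβ
  have e3 := hE3 R s Ω X K u α β hα hβ
  have key : ∑ y, ∑ x, ∑ t ∈ range R, ∑ r ∈ range (t + 1), (if ¬ (K.a y r u ↔ K.p y t x u) then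
      α y r * β y t x / ((t : ℝ) - r + 1) else 0) ≤
      ∑ y, ∑ x, ∑ t ∈ range R, ∑ r ∈ range (t + 1), ((if ¬ K.a y r u ∧ K.a y t u then
        α y r * β y t x / ((t : ℝ) - r + 1) else 0) + (if ¬ K.a y t u ∧ K.B y t u then
        α y r * β y t x / ((t : ℝ) - r + 1) else 0) + (if ¬ K.B y t u ∧ K.p y t x u then
        α y r * β y t x / ((t : ℝ) - r + 1) else 0)) := by
    refine sum_le_sum fun y _ => sum_le_sum fun x _ => sum_le_sum fun t ht =>
      sum_le_sum fun r hr => ?_
    have htR := mem_range.1 ht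
    have hrt : r ≤ t := by
      have := mem_range.1 hr
      omega
    have hrt' : (r : ℝ) ≤ t := by exact_mod_cast hrt
    have hv : 0 ≤ α y r * β y t x / ((t : ℝ) - r + 1) :=
      div_nonneg (mul_nonneg (hα y r) (hβ y t x)) (by linarith)
    by_cases h : ¬ (K.a y r u ↔ K.p y t x u)
    · rw [if_pos h]
      have h1 : ¬ K.a y r u := by
        intro h1
        have h2 := ch_mono K y u hrt htR.le h1
        exact h ⟨fun _ => K.le y t x u h2, fun _ => h1⟩
      have h2 : K.p y t x u := by
        by_contra h2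
        exact h ⟨fun h3 => absurd h3 h1, fun h3 => absurd h3 h2⟩
      by_cases h3 : K.a y t u
      · rw [if_pos ⟨h1, h3⟩, if_neg (fun h4 => h4.1 h3)]
        by_cases h5 : ¬ K.B y t u ∧ K.p y t x u
        · rw [if_pos h5]
          linarith
        · rw [if_neg h5]
          linarith
      · rw [if_neg (fun h4 => h3 h4.2)]
        by_cases h5 : K.B y t u
        · rw [if_pos ⟨h3, h5⟩, if_neg (fun h4 => h4.1 h5)]
          linarith
        · rw [if_neg (fun h4 => h5 h4.2), if_pos ⟨h5, h2⟩]
          linarith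
    · rw [if_neg h]
      refine add_nonneg (add_nonneg ?_ ?_) ?_ <;> split_ifs <;> first | exact hv | exact le_rfl
  refine key.trans ?_
  simp only [sum_add_distrib]
  have hS : 0 ≤ (Fintype.card X : ℝ) * ∑ y, ∑ t ∈ range R, α y t ^ 2 +
      ∑ y, ∑ x, ∑ t ∈ range R, β y t x ^ 2 := by positivity
  linarith

end Pool.Agent.H45.QF
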