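import Pool.Agent.H79.QF.Targets

/-!
# Board qfg_modules, row HIL: Hilbert's inequality
-/

set_option autoImplicit false

open Finset

namespace Pool.Agent.H45.QF

open Pool.Agent.H79.QF

theorem hil_tel (c : ℝ) (hc : 0 < c) (n : ℕ) :
    1 / ((c + ((n : ℝ) + 1)) * Real.sqrt ((n : ℝ) + 1)) ≤
      4 / (Real.sqrt c + Real.sqrt n) - 4 / (Real.sqrt c + Real.sqrt ((n : ℝ) + 1)) := by
  have hn : (0 : ℝ) ≤ n := Nat.cast_nonneg n
  obtain ⟨p, hp⟩ : ∃ p, p = Real.sqrt c := ⟨_, rfl⟩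
  obtain ⟨x, hx⟩ : ∃ x, x = Real.sqrt (n : ℝ) := ⟨_, rfl⟩
  obtain ⟨y, hy⟩ : ∃ y, y = Real.sqrt ((n : ℝ) + 1) := ⟨_, rfl⟩
  have hp0 : 0 < p := hp ▸ Real.sqrt_pos.2 hc
  have hx0 : 0 ≤ x := hx ▸ Real.sqrt_nonneg _
  have hy0 : 0 < y := hy ▸ Real.sqrt_pos.2 (by linarith)
  have hp2 : p ^ 2 = c := by rw [hp]; exact Real.sq_sqrt hc.le
  have hx2 : x ^ 2 = n := by rw [hx]; exact Real.sq_sqrt hn
  have hy2 : y ^ 2 = (n : ℝ) + 1 := by rw [hy]; exact Real.sq_sqrt (by linarith)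
  have hxy : x ≤ y := by
    rw [hx, hy]
    exact Real.sqrt_le_sqrt (by linarith)
  rw [← hp, ← hx, ← hy, ← hp2, ← hy2]
  have h1 : 4 / (p + x) - 4 / (p + y) = 4 / ((x + y) * ((p + x) * (p + y))) := by
    have h2 : (y - x) * (x + y) = 1 := by nlinarith
    have h3 : 0 < x + y := by linarith
    have h4 : 0 < p + x := by linarith
    have h5 : 0 < p + y := by linarith
    rw [div_sub_div _ _ h4.ne' h5.ne', div_eq_div_iff (mul_pos h4 h5).ne'
      (mul_pos h3 (mul_pos h4 h5)).ne']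
    have h6 : (4 * (p + y) - (p + x) * 4) * ((x + y) * ((p + x) * (p + y))) =
        4 * ((y - x) * (x + y)) * ((p + x) * (p + y)) := by ring
    rw [h6, h2]
    ring
  rw [h1, div_le_div_iff₀ (by positivity) (by positivity)]
  have h2 : (p + x) * (p + y) ≤ 2 * (p ^ 2 + y ^ 2) := by nlinarith [sq_nonneg (p - y)]
  have h3 : x + y ≤ 2 * y := by linarith
  have h4 : (x + y) * ((p + x) * (p + y)) ≤ (2 * y) * (2 * (p ^ 2 + y ^ 2)) :=
    mul_le_mul h3 h2 (by positivity) (by positivity)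
  linarith

theorem hil_s (c : ℝ) (hc : 0 < c) (N : ℕ) :
    ∑ j ∈ range N, 1 / ((c + ((j : ℝ) + 1)) * Real.sqrt ((j : ℝ) + 1)) ≤
      4 / Real.sqrt c - 4 / (Real.sqrt c + Real.sqrt N) := by
  induction N with
  | zero => simp
  | succ n ih =>
    rw [sum_range_succ]
    have h := hil_tel c hc n
    push_cast
    linarith

theorem hil_s' (c : ℝ) (hc : 0 < c) (N : ℕ) :
    ∑ j ∈ range N, 1 / ((c + ((j : ℝ) + 1)) * Real.sqrt ((j : ℝ) + 1)) ≤ 4 / Real.sqrt c := by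
  have h := hil_s c hc N
  have h1 : 0 ≤ 4 / (Real.sqrt c + Real.sqrt N) := by positivity
  linarith

/-- the sum over `t` -/
theorem hil_t (R τ r : ℕ) (hr : r ≤ τ) :
    ∑ t ∈ range R, (if τ < t then
      1 / (((t : ℝ) - r + 1) * Real.sqrt ((t : ℝ) - τ)) else 0) ≤
      4 / Real.sqrt ((τ : ℝ) - r + 1) := by
  have hr' : (r : ℝ) ≤ τ := by exact_mod_cast hr
  rw [← sum_filter]
  have h1 : (range R).filter (fun t => τ < t) = Ico (τ + 1) R := by
    ext t
    simp only [mem_filter, mem_range, mem_Ico]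
    omega
  rw [h1, sum_Ico_eq_sum_range]
  refine le_trans (le_of_eq ?_) (hil_s' ((τ : ℝ) - r + 1) (by linarith) (R - (τ + 1)))
  refine sum_congr rfl fun j _ => ?_
  have h2 : ((τ + 1 + j : ℕ) : ℝ) - r + 1 = (τ : ℝ) - r + 1 + ((j : ℝ) + 1) := by
    push_cast
    ring
  have h3 : ((τ + 1 + j : ℕ) : ℝ) - τ = (j : ℝ) + 1 := by
    push_cast
    ring
  rw [h2, h3]

/-- the sum over `r` -/
theorem hil_r (t τ : ℕ) (ht : τ < t) :
    ∑ r ∈ range (t + 1), (if r ≤ τ then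
      1 / (((t : ℝ) - r + 1) * Real.sqrt ((τ : ℝ) - r + 1)) else 0) ≤
      4 / Real.sqrt ((t : ℝ) - τ) := by
  have ht' : (τ : ℝ) < t := by exact_mod_cast ht
  rw [← sum_filter]
  have h1 : (range (t + 1)).filter (fun r => r ≤ τ) = range (τ + 1) := by
    ext r
    simp only [mem_filter, mem_range]
    omega
  rw [h1, ← sum_range_reflect]
  refine le_trans (le_of_eq ?_) (hil_s' ((t : ℝ) - τ) (by linarith) (τ + 1))
  refine sum_congr rfl fun j hj => ?_
  have hj' : j ≤ τ := by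
    have := mem_range.1 hj
    omega
  have h0 : ((τ + 1 - 1 - j : ℕ) : ℝ) = (τ : ℝ) - j := by
    rw [Nat.add_sub_cancel, Nat.cast_sub hj']
  rw [h0]
  have h2 : (t : ℝ) - ((τ : ℝ) - j) + 1 = (t : ℝ) - τ + ((j : ℝ) + 1) := by ring
  have h3 : (τ : ℝ) - ((τ : ℝ) - j) + 1 = (j : ℝ) + 1 := by ring
  rw [h2, h3]

/-- one term -/
theorem hil_pt (a b D U V : ℝ) (hD : 0 < D) (hU : 0 < U) (hV : 0 < V) :
    a * b / D ≤ a ^ 2 * Real.sqrt U / 2 * (1 / (D * Real.sqrt V)) +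
      b ^ 2 * Real.sqrt V / 2 * (1 / (D * Real.sqrt U)) := by
  obtain ⟨u, hu⟩ : ∃ u, u = Real.sqrt U := ⟨_, rfl⟩
  obtain ⟨v, hv⟩ : ∃ v, v = Real.sqrt V := ⟨_, rfl⟩
  have hu0 : 0 < u := hu ▸ Real.sqrt_pos.2 hU
  have hv0 : 0 < v := hv ▸ Real.sqrt_pos.2 hV
  rw [← hu, ← hv]
  have h1 : a ^ 2 * u / 2 * (1 / (D * v)) + b ^ 2 * v / 2 * (1 / (D * u)) - a * b / D =
      (a * u - b * v) ^ 2 / (2 * D * u * v) := by
    field_simp
    ring
  have h2 : 0 ≤ (a * u - b * v) ^ 2 / (2 * D * u * v) := by positivity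
  linarith

theorem pf_HIL : T_HIL := by
  intro R τ a b _ _
  have step1 : ∑ t ∈ range R, ∑ r ∈ range (t + 1),
      (if r ≤ τ ∧ τ < t then a r * b t / ((t : ℝ) - r + 1) else 0) ≤
      ∑ t ∈ range R, ∑ r ∈ range (t + 1),
        ((if r ≤ τ ∧ τ < t then a r ^ 2 * Real.sqrt ((τ : ℝ) - r + 1) / 2 *
          (1 / (((t : ℝ) - r + 1) * Real.sqrt ((t : ℝ) - τ))) else 0) +
        (if r ≤ τ ∧ τ < t then b t ^ 2 * Real.sqrt ((t : ℝ) - τ) / 2 *
          (1 / (((t : ℝ) - r + 1) * Real.sqrt ((τ : ℝ) - r + 1))) else 0)) := by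
    refine sum_le_sum fun t _ => sum_le_sum fun r _ => ?_
    by_cases h : r ≤ τ ∧ τ < t
    · rw [if_pos h, if_pos h, if_pos h]
      have h1 : (r : ℝ) ≤ τ := by exact_mod_cast h.1
      have h2 : (τ : ℝ) < t := by exact_mod_cast h.2
      exact hil_pt (a r) (b t) _ _ _ (by linarith) (by linarith) (by linarith)
    · rw [if_neg h, if_neg h, if_neg h, add_zero]
  refine step1.trans ?_
  simp only [sum_add_distrib]
  rw [mul_add]
  refine add_le_add ?_ ?_
  · -- the first part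
    have h1 : ∑ t ∈ range R, ∑ r ∈ range (t + 1),
        (if r ≤ τ ∧ τ < t then a r ^ 2 * Real.sqrt ((τ : ℝ) - r + 1) / 2 *
          (1 / (((t : ℝ) - r + 1) * Real.sqrt ((t : ℝ) - τ))) else 0) ≤
        ∑ t ∈ range R, ∑ r ∈ range R,
        (if r ≤ τ ∧ τ < t then a r ^ 2 * Real.sqrt ((τ : ℝ) - r + 1) / 2 *
          (1 / (((t : ℝ) - r + 1) * Real.sqrt ((t : ℝ) - τ))) else 0) := by
      refine sum_le_sum fun t ht => sum_le_sum_of_subset_of_nonneg ?_ ?_
      · exact range_subset_range.2 (mem_range.1 ht)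
      · intro r _ _
        by_cases h : r ≤ τ ∧ τ < t
        · rw [if_pos h]
          have h1 : (r : ℝ) ≤ τ := by exact_mod_cast h.1
          have h2 : (τ : ℝ) < t := by exact_mod_cast h.2
          have h3 : 0 < (t : ℝ) - r + 1 := by linarith
          positivity
        · rw [if_neg h]
    refine h1.trans ?_
    rw [sum_comm, mul_sum]
    refine sum_le_sum fun r _ => ?_
    by_cases hr : r ≤ τ
    · have h2 : ∀ t ∈ range R, (if r ≤ τ ∧ τ < t then a r ^ 2 * Real.sqrt ((τ : ℝ) - r + 1) / 2 *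
          (1 / (((t : ℝ) - r + 1) * Real.sqrt ((t : ℝ) - τ))) else 0) =
          a r ^ 2 * Real.sqrt ((τ : ℝ) - r + 1) / 2 * (if τ < t then
          1 / (((t : ℝ) - r + 1) * Real.sqrt ((t : ℝ) - τ)) else 0) := by
        intro t _
        by_cases h : τ < t
        · rw [if_pos ⟨hr, h⟩, if_pos h]
        · rw [if_neg (fun h' => h h'.2), if_neg h, mul_zero]
      rw [sum_congr rfl h2, ← mul_sum]
      have hr' : (r : ℝ) ≤ τ := by exact_mod_cast hr
      have h3 : 0 < Real.sqrt ((τ : ℝ) - r + 1) := Real.sqrt_pos.2 (by linarith)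
      calc a r ^ 2 * Real.sqrt ((τ : ℝ) - r + 1) / 2 * _
          ≤ a r ^ 2 * Real.sqrt ((τ : ℝ) - r + 1) / 2 * (4 / Real.sqrt ((τ : ℝ) - r + 1)) :=
            mul_le_mul_of_nonneg_left (hil_t R τ r hr) (by positivity)
        _ = 2 * a r ^ 2 := by
            field_simp
            ring
    · have h2 : ∀ t ∈ range R, (if r ≤ τ ∧ τ < t then a r ^ 2 * Real.sqrt ((τ : ℝ) - r + 1) / 2 *
          (1 / (((t : ℝ) - r + 1) * Real.sqrt ((t : ℝ) - τ))) else 0) = 0 := by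
        intro t _
        rw [if_neg (fun h => hr h.1)]
      rw [sum_eq_zero h2]
      positivity
  · rw [mul_sum]
    refine sum_le_sum fun t _ => ?_
    by_cases ht : τ < t
    · have h2 : ∀ r ∈ range (t + 1), (if r ≤ τ ∧ τ < t then b t ^ 2 * Real.sqrt ((t : ℝ) - τ) / 2 *
          (1 / (((t : ℝ) - r + 1) * Real.sqrt ((τ : ℝ) - r + 1))) else 0) =
          b t ^ 2 * Real.sqrt ((t : ℝ) - τ) / 2 * (if r ≤ τ then
          1 / (((t : ℝ) - r + 1) * Real.sqrt ((τ : ℝ) - r + 1)) else 0) := by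
        intro r _
        by_cases h : r ≤ τ
        · rw [if_pos ⟨h, ht⟩, if_pos h]
        · rw [if_neg (fun h' => h h'.1), if_neg h, mul_zero]
      rw [sum_congr rfl h2, ← mul_sum]
      have ht' : (τ : ℝ) < t := by exact_mod_cast ht
      have h3 : 0 < Real.sqrt ((t : ℝ) - τ) := Real.sqrt_pos.2 (by linarith)
      calc b t ^ 2 * Real.sqrt ((t : ℝ) - τ) / 2 * _
          ≤ b t ^ 2 * Real.sqrt ((t : ℝ) - τ) / 2 * (4 / Real.sqrt ((t : ℝ) - τ)) :=
            mul_le_mul_of_nonneg_left (hil_r t τ ht) (by positivity)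
        _ = 2 * b t ^ 2 := by
            field_simp
            ring
    · have h2 : ∀ r ∈ range (t + 1), (if r ≤ τ ∧ τ < t then b t ^ 2 * Real.sqrt ((t : ℝ) - τ) / 2 *
          (1 / (((t : ℝ) - r + 1) * Real.sqrt ((τ : ℝ) - r + 1))) else 0) = 0 := by
        intro r _
        rw [if_neg (fun h => ht h.2)]
      rw [sum_eq_zero h2]
      positivity

end Pool.Agent.H45.QF
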